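import Mathlib

/-! The arithmetic of the sliding argument. -/

set_option autoImplicit false

namespace Pool.Agent.P.MP_bb4f54_co.CF

/-- No power of two lies between `l` and `3 l / 2`. -/
def Gp (l : ℕ) : Prop := ∀ k, l ≤ 2 ^ k → 3 * l < 2 * 2 ^ k

theorem slide {c i a1 a2 : ℕ} {F : ℕ → ℕ} {good : ℕ → Prop} (c1 : 2 * 2 ^ i < c)
    (c2 : 3 * c < 8 * 2 ^ i) (F0 : F 0 = 2)
    (step : ∀ a, 0 < a → a < c → good a →
      ∃ b < a, good b ∧ (∀ x, b < x → x < a → ¬ good x) ∧ F a ≤ F b + c)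
    (gap : ∀ a, 0 < a → 2 * a ≤ c → good a → a ≤ F a ∧ Gp (F a) ∧ Gp (F a + c - 2 * a))
    (g1 : good a1) (g2 : good a2) (l1 : 6 * a1 + 4 * 2 ^ i ≤ 3 * c + 3)
    (u1 : 3 * c ≤ 6 * a1 + 4 * 2 ^ i + 3) (l2 : 6 * a2 + 2 * 2 ^ i ≤ 3 * c + 3)
    (u2 : 3 * c ≤ 6 * a2 + 2 * 2 ^ i + 3) (h12 : a1 ≤ a2) (hi : 2 ≤ 2 ^ i) : False := by
  have G : ∀ l, Gp l → (l ≤ 2 ^ i → 3 * l < 2 * 2 ^ i) ∧ (l ≤ 2 * 2 ^ i → 3 * l < 4 * 2 ^ i) ∧
      (l ≤ 4 * 2 ^ i → 3 * l < 8 * 2 ^ i) ∧ (l ≤ 8 * 2 ^ i → 3 * l < 16 * 2 ^ i) := fun l h => by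
    have a := h i
    have b := h (i + 1)
    have c := h (i + 2)
    have d := h (i + 3)
    rw [pow_add] at b c d
    omega
  generalize 2 ^ i = H at *
  have p1 : ∀ a, good a → 6 * a + 4 * H ≤ 3 * c + 3 → 3 * F a < 8 * H := by
    intro a
    induction a using Nat.strong_induction_on with
    | _ a ih =>
      intro g l
      rcases Nat.eq_zero_or_pos a with rfl | h
      · omega
      obtain ⟨b, x, y, -, z⟩ := step a h (by omega) g
      have := ih b x y (by omega)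
      obtain ⟨-, s, t⟩ := gap a h (by omega) g
      have := G _ s
      have := G _ t
      omega
  have p2 : ∀ a, a1 ≤ a → good a → 6 * a + 2 * H ≤ 3 * c + 3 → 3 * F a < 4 * H := by
    intro a
    induction a using Nat.strong_induction_on with
    | _ a ih =>
      intro e g l
      obtain ⟨-, s, t⟩ := gap a (by omega) (by omega) g
      have := G _ s
      have := G _ t
      rcases e.eq_or_lt with rfl | e
      · have := p1 _ g l1
        omega
      obtain ⟨b, x, y, w, z⟩ := step a (by omega) (by omega) g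
      have := ih b x (by_contra fun q => w a1 (by omega) e g1) y (by omega)
      omega
  have := p2 a2 h12 g2 l2
  obtain ⟨r, s, t⟩ := gap a2 (by omega) (by omega) g2
  have := G _ s
  have := G _ t
  omega

end Pool.Agent.P.MP_bb4f54_co.CF
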