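import Mathlib

/-! Paths and cycles as sequences of vertices. -/

set_option autoImplicit false

namespace Pool.Agent.P.MP_bb4f54_co.CF

open Set

variable {V : Type} {G : SimpleGraph V}

/-- `p 0, …, p n` is a walk inside `S`. -/
def Pth (G : SimpleGraph V) (S : Set V) (p : ℕ → V) (n : ℕ) : Prop :=
  (∀ i < n, G.Adj (p i) (p (i + 1))) ∧ ∀ i ≤ n, p i ∈ S

/-- There is a walk of length `n` from `x` to `y` inside `S`. -/
def Wk (G : SimpleGraph V) (S : Set V) (x y : V) (n : ℕ) : Prop :=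
  ∃ p, Pth G S p n ∧ p 0 = x ∧ p n = y

/-- Reachability inside `S`. -/
def Re (G : SimpleGraph V) (S : Set V) (x y : V) : Prop := ∃ n, Wk G S x y n

/-- `S` induces a connected (possibly empty) graph. -/
def Conn (G : SimpleGraph V) (S : Set V) : Prop := ∀ x ∈ S, ∀ y ∈ S, Re G S x y

/-- A cycle of length `n` as a periodic sequence. -/
structure IsCyc (G : SimpleGraph V) (z : ℕ → V) (n : ℕ) : Prop where
  three : 3 ≤ n
  adj : ∀ i, G.Adj (z i) (z (i + 1))
  per : ∀ i, z (i + n) = z i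
  inj : ∀ i j, i < j → j < i + n → z i ≠ z j

variable {S S' : Set V} {x y w : V} {n m : ℕ} {p q z : ℕ → V}

theorem Wk.refl (h : x ∈ S) : Wk G S x x 0 :=
  ⟨fun _ => x, ⟨fun _ hi => absurd hi (Nat.not_lt_zero _), fun _ _ => h⟩, rfl, rfl⟩

theorem Wk.left (h : Wk G S x y n) : x ∈ S := by
  obtain ⟨p, hp, rfl, -⟩ := h; exact hp.2 0 (Nat.zero_le _)

theorem Wk.right (h : Wk G S x y n) : y ∈ S := by
  obtain ⟨p, hp, -, rfl⟩ := h; exact hp.2 n le_rfl

theorem Wk.mono (h : Wk G S x y n) (hs : S ⊆ S') : Wk G S' x y n := by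
  obtain ⟨p, hp, a, b⟩ := h
  exact ⟨p, ⟨hp.1, fun i hi => hs (hp.2 i hi)⟩, a, b⟩

theorem Wk.symm (h : Wk G S x y n) : Wk G S y x n := by
  obtain ⟨p, hp, a, b⟩ := h
  refine ⟨fun i => p (n - i), ⟨fun i hi => ?_, fun i _ => hp.2 _ (Nat.sub_le _ _)⟩, b, by simpa⟩
  have := (hp.1 (n - (i + 1)) (by omega)).symm
  rwa [show n - (i + 1) + 1 = n - i by omega] at this

theorem Wk.trans (h : Wk G S x y n) (h' : Wk G S y w m) : Wk G S x w (n + m) := by
  obtain ⟨p, hp, a, b⟩ := h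
  obtain ⟨q, hq, c, d⟩ := h'
  have e : ∀ i, n ≤ i → (if i ≤ n then p i else q (i - n)) = q (i - n) := fun i hi => by
    split_ifs with h
    · obtain rfl : i = n := le_antisymm h hi
      rw [b, Nat.sub_self, c]
    · rfl
  refine ⟨fun i => if i ≤ n then p i else q (i - n), ⟨fun i hi => ?_, fun i hi => ?_⟩, by simpa,
    by simp only []; rw [e _ (by omega), Nat.add_sub_cancel_left, d]⟩
  · simp only []
    by_cases h : i < n
    · rw [if_pos h.le, if_pos (by omega)]; exact hp.1 i h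
    · rw [e i (by omega), e (i + 1) (by omega), show i + 1 - n = i - n + 1 by omega]
      exact hq.1 _ (by omega)
  · simp only []
    split_ifs with h
    · exact hp.2 i h
    · exact hq.2 _ (by omega)

theorem Wk.one (h : G.Adj x y) (hx : x ∈ S) (hy : y ∈ S) : Wk G S x y 1 := by
  refine ⟨fun i => if i = 0 then x else y, ⟨fun i hi => ?_, fun i _ => ?_⟩, by simp, by simp⟩
  · obtain rfl : i = 0 := by omega
    simpa
  · simp only []; split_ifs <;> assumption

/-- A segment of a sequence with adjacent consecutive terms. -/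
theorem Wk.seg {i j : ℕ} (hij : i ≤ j) (ha : ∀ k, i ≤ k → k < j → G.Adj (p k) (p (k + 1)))
    (hs : ∀ k, i ≤ k → k ≤ j → p k ∈ S) : Wk G S (p i) (p j) (j - i) :=
  ⟨fun k => p (i + k), ⟨fun k hk => ha (i + k) (by omega) (by omega),
    fun k hk => hs _ (by omega) (by omega)⟩, rfl, by simp only []; congr 1; omega⟩

theorem Pth.seg (h : Pth G S p n) {i j : ℕ} (hij : i ≤ j) (hj : j ≤ n) :
    Wk G S (p i) (p j) (j - i) :=
  Wk.seg hij (fun k _ _ => h.1 k (by omega)) fun k _ _ => h.2 k (by omega)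

theorem Re.refl (h : x ∈ S) : Re G S x x := ⟨0, Wk.refl h⟩
theorem Re.symm (h : Re G S x y) : Re G S y x := h.imp fun _ h => h.symm
theorem Re.mono (h : Re G S x y) (hs : S ⊆ S') : Re G S' x y := h.imp fun _ h => h.mono hs
theorem Re.right (h : Re G S x y) : y ∈ S := let ⟨_, h⟩ := h; h.right
theorem Re.left (h : Re G S x y) : x ∈ S := let ⟨_, h⟩ := h; h.left
theorem Re.trans (h : Re G S x y) (h' : Re G S y w) : Re G S x w :=
  let ⟨_, a⟩ := h; let ⟨_, b⟩ := h'; ⟨_, a.trans b⟩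
theorem Re.step (h : Re G S x y) (a : G.Adj y w) (hw : w ∈ S) : Re G S x w :=
  h.trans ⟨1, Wk.one a h.right hw⟩

theorem Conn.insert (h : Conn G S) (hy : y ∈ S) (a : G.Adj y x) : Conn G (insert x S) := by
  have k : ∀ u ∈ Insert.insert x S, Re G (Insert.insert x S) y u := by
    rintro u (rfl | hu)
    · exact (Re.refl (mem_insert_of_mem _ hy)).step a (mem_insert _ _)
    · exact (h y hy u hu).mono (subset_insert _ _)
  exact fun u hu v hv => (k u hu).symm.trans (k v hv)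

/-- A shortest walk inside `S`. -/
structure Geo (G : SimpleGraph V) (S : Set V) (p : ℕ → V) (m : ℕ) : Prop where
  pth : Pth G S p m
  min : ∀ n, Wk G S (p 0) (p m) n → m ≤ n

theorem Re.geo (h : Re G S x y) : ∃ p m, Geo G S p m ∧ p 0 = x ∧ p m = y := by
  classical
  obtain ⟨p, hp, a, b⟩ := Nat.find_spec h
  exact ⟨p, _, ⟨hp, fun n hn => Nat.find_min' h (by rwa [a, b] at hn)⟩, a, b⟩

theorem Geo.cut (h : Geo G S p m) {i j k : ℕ} (hi : i ≤ m) (hj : j ≤ m)
    (hk : Wk G S (p i) (p j) k) : j ≤ i + k := by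
  have := h.min _ (((h.pth.seg (Nat.zero_le i) hi).trans hk).trans (h.pth.seg hj le_rfl))
  omega

theorem Geo.inj (h : Geo G S p m) {i j : ℕ} (hi : i ≤ m) (hj : j ≤ m) (e : p i = p j) : i = j := by
  have a := h.cut hi hj (k := 0) (e ▸ Wk.refl (h.pth.2 i hi))
  have b := h.cut hj hi (k := 0) (e ▸ Wk.refl (h.pth.2 i hi))
  omega

theorem Geo.chord (h : Geo G S p m) {i j : ℕ} (hi : i ≤ m) (hj : j ≤ m) (e : G.Adj (p i) (p j)) :
    j = i + 1 ∨ i = j + 1 := by
  have a := h.cut hi hj (Wk.one e (h.pth.2 i hi) (h.pth.2 j hj))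
  have b := h.cut hj hi (Wk.one e.symm (h.pth.2 j hj) (h.pth.2 i hi))
  have : i ≠ j := fun c => e.ne (c ▸ rfl)
  omega

theorem IsCyc.per_mul (h : IsCyc G z n) (i t : ℕ) : z (i + n * t) = z i := by
  induction t with
  | zero => simp
  | succ t ih => rw [Nat.mul_succ, ← Nat.add_assoc, h.per, ih]

theorem IsCyc.idx (h : IsCyc G z n) (a k : ℕ) : ∃ j, a ≤ j ∧ j < a + n ∧ z j = z k := by
  have h3 := h.three
  refine ⟨a + (k + (n - 1) * a) % n, by omega, by
    have := Nat.mod_lt (k + (n - 1) * a) (show 0 < n by omega); omega, ?_⟩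
  rw [← h.per_mul _ ((k + (n - 1) * a) / n), Nat.add_assoc, Nat.mod_add_div, ← h.per_mul k a]
  congr 1
  obtain ⟨n, rfl⟩ : ∃ m, n = m + 1 := ⟨n - 1, by omega⟩
  simp only [Nat.add_sub_cancel]; ring

theorem IsCyc.eq (h : IsCyc G z n) {i j : ℕ} (e : z i = z j) (a : j < i + n) (b : i < j + n) :
    i = j := by
  rcases lt_trichotomy i j with c | c | c
  · exact absurd e (h.inj i j c a)
  · exact c
  · exact absurd e.symm (h.inj j i c b)

theorem cyc_of_fin {u : ℕ → V} {N : ℕ} (h3 : 3 ≤ N) (ha : ∀ i, i + 1 < N → G.Adj (u i) (u (i + 1)))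
    (hl : G.Adj (u (N - 1)) (u 0)) (hi : ∀ i j, i < j → j < N → u i ≠ u j) :
    ∃ z, IsCyc G z N ∧ ∀ v, v ∈ range z ↔ ∃ i < N, u i = v := by
  have hN : 0 < N := by omega
  refine ⟨fun i => u (i % N), ⟨h3, fun i => ?_, fun i => by simp, fun i j a b => ?_⟩, fun v =>
    ⟨fun ⟨i, e⟩ => ⟨_, Nat.mod_lt i hN, e⟩, fun ⟨i, a, e⟩ => ⟨i, by simp [Nat.mod_eq_of_lt a, e]⟩⟩⟩
  · have := Nat.mod_lt i hN
    rw [Nat.add_mod, Nat.mod_eq_of_lt (show 1 < N by omega)]
    by_cases c : i % N + 1 < N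
    · rw [Nat.mod_eq_of_lt c]; exact ha _ c
    · have e : i % N = N - 1 := by omega
      rw [e, show N - 1 + 1 = N by omega, Nat.mod_self]; exact hl
  · have c : i % N ≠ j % N := fun e => by
      have := Nat.le_of_dvd (by omega) ((Nat.modEq_iff_dvd' a.le).1 e)
      omega
    rcases lt_or_gt_of_ne c with d | d
    · exact hi _ _ d (Nat.mod_lt _ hN)
    · exact (hi _ _ d (Nat.mod_lt _ hN)).symm

/-- Two disjoint paths joined at both ends form a cycle. -/
theorem join (h3 : 1 ≤ n + m) (hp : ∀ i < n, G.Adj (p i) (p (i + 1)))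
    (hq : ∀ i < m, G.Adj (q i) (q (i + 1))) (ip : ∀ i j, i < j → j ≤ n → p i ≠ p j)
    (iq : ∀ i j, i < j → j ≤ m → q i ≠ q j) (hd : ∀ i ≤ n, ∀ j ≤ m, p i ≠ q j)
    (a : G.Adj (p n) (q 0)) (b : G.Adj (q m) (p 0)) :
    ∃ z, IsCyc G z (n + m + 2) ∧ ∀ v, v ∈ range z ↔ (∃ i ≤ n, p i = v) ∨ ∃ j ≤ m, q j = v := by
  obtain ⟨z, hz, hr⟩ := cyc_of_fin (G := G) (u := fun i => if i ≤ n then p i else q (i - (n + 1)))
    (N := n + m + 2) (by omega) (fun i hi => by
      by_cases c : i + 1 ≤ n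
      · rw [if_pos c, if_pos (by omega)]; exact hp i (by omega)
      · rw [if_neg c]
        by_cases d : i ≤ n
        · obtain rfl : i = n := by omega
          simpa using a
        · rw [if_neg d, show i + 1 - (n + 1) = i - (n + 1) + 1 by omega]
          exact hq _ (by omega))
    (by
      rw [if_neg (by omega), if_pos (by omega), show n + m + 2 - 1 - (n + 1) = m by omega]; exact b)
    (fun i j c d => by
      by_cases e : j ≤ n
      · rw [if_pos e, if_pos (by omega)]; exact ip i j c e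
      · rw [if_neg e]
        by_cases f : i ≤ n
        · rw [if_pos f]; exact hd i f _ (by omega)
        · rw [if_neg f]; exact iq _ _ (by omega) (by omega))
  refine ⟨z, hz, fun v => (hr v).trans ⟨?_, ?_⟩⟩
  · rintro ⟨i, c, rfl⟩
    by_cases e : i ≤ n
    · exact Or.inl ⟨i, e, by simp [e]⟩
    · exact Or.inr ⟨i - (n + 1), by omega, by simp [e]⟩
  · rintro (⟨i, c, rfl⟩ | ⟨j, c, rfl⟩)
    · exact ⟨i, by omega, by simp [c]⟩
    · exact ⟨j + (n + 1), by omega, by rw [if_neg (by omega)]; simp⟩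

theorem IsCyc.walk (h : IsCyc G z n) : ∃ (v : V) (c : G.Walk v v), c.IsCycle ∧ c.length = n := by
  have k : ∀ t, ∃ w : G.Walk (z 1) (z (t + 1)), w.length = t ∧
      w.support = (List.range (t + 1)).map fun i => z (i + 1) := by
    intro t
    induction t with
    | zero => exact ⟨.nil, rfl, rfl⟩
    | succ t ih =>
      obtain ⟨w, a, b⟩ := ih
      exact ⟨w.concat (h.adj _), by simp [a], by
        rw [SimpleGraph.Walk.support_concat, b, List.range_succ (n := t + 1)]; simp⟩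
  have h3 := h.three
  obtain ⟨w, a, b⟩ := k (n - 1)
  have e : z (n - 1 + 1) = z 0 := by rw [← h.per 0]; congr 1; omega
  refine ⟨z 0, .cons (h.adj 0) (w.copy rfl e), ?_, by simp [a]; omega⟩
  rw [SimpleGraph.Walk.isCycle_iff_isPath_tail_and_le_length]
  refine ⟨?_, by simp [a]; omega⟩
  rw [SimpleGraph.Walk.isPath_def, SimpleGraph.Walk.support_tail_of_not_nil _ (by simp)]
  simp only [SimpleGraph.Walk.support_cons, List.tail_cons, SimpleGraph.Walk.support_copy, b]
  refine List.Nodup.map_on (fun i hi j hj e => ?_) List.nodup_range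
  simp only [List.mem_range] at hi hj
  have := h.eq e (by omega) (by omega)
  omega

end Pool.Agent.P.MP_bb4f54_co.CF
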