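import Pool.Agent.P.MP_bb4f54_co.CF.Per

/-! The sliding argument on a longest cycle with connected complement. -/

set_option autoImplicit false

namespace Pool.Agent.P.MP_bb4f54_co.CF

open Set

variable {V : Type} {G : SimpleGraph V} {Sp : Set V}

theorem pick {z : ℕ → V} {c : ℕ} (hz : IsCyc G z c) (hc : 10 ≤ c) (s1 s2 s3 : V) (a1 a2 : ℕ) :
    ∃ a, ∀ o ∈ ({0, a1, a2} : Finset ℕ), ¬ (z (a + o) = s1 ∨ z (a + o) = s2 ∨ z (a + o) = s3) := by
  classical
  by_contra k
  push Not at k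
  choose o ho hs using k
  have := Finset.card_le_card_of_injOn (s := Finset.range c)
    (t := ({0, a1, a2} : Finset ℕ) ×ˢ ({s1, s2, s3} : Finset V)) (fun a => (o a, z (a + o a)))
    (fun a _ => by simpa using ⟨by simpa using ho a, hs a⟩) (fun a ha b hb e => by
      simp only [Prod.mk.injEq] at e
      simp only [Finset.coe_range, mem_Iio] at ha hb
      have := hz.eq e.2 (by omega) (by omega)
      omega)
  rw [Finset.card_range, Finset.card_product] at this
  have a := Finset.card_le_three (a := 0) (b := a1) (c := a2)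
  have b := Finset.card_le_three (a := s1) (b := s2) (c := s3)
  have := Nat.mul_le_mul a b
  omega

theorem pick9 {z : ℕ → V} (hz : IsCyc G z 9) (s1 s2 s3 : V) :
    ∃ a, ∀ o ∈ ({0, 2, 3} : Finset ℕ), ¬ (z (a + o) = s1 ∨ z (a + o) = s2 ∨ z (a + o) = s3) := by
  have pos : ∀ s, ∃ k : Fin 9, ∀ a : Fin 9, z a = s → a = k := fun s => by
    by_cases c : ∃ k : Fin 9, z k = s
    · obtain ⟨k, rfl⟩ := c
      exact ⟨k, fun a e => Fin.ext (hz.eq e (by omega) (by omega))⟩
    · exact ⟨0, fun a e => absurd ⟨a, e⟩ c⟩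
  obtain ⟨k1, h1⟩ := pos s1
  obtain ⟨k2, h2⟩ := pos s2
  obtain ⟨k3, h3⟩ := pos s3
  obtain ⟨a, ha⟩ := (by decide : ∀ k1 k2 k3 : Fin 9, ∃ a : Fin 9, ∀ o ∈ ({0, 2, 3} : Finset ℕ),
    (a + o) % 9 ≠ k1 ∧ (a + o) % 9 ≠ k2 ∧ (a + o) % 9 ≠ k3) k1 k2 k3
  refine ⟨a, fun o ho => ?_⟩
  have e : z (a + o) = z (⟨(a + o) % 9, Nat.mod_lt _ (by norm_num)⟩ : Fin 9) := by
    rw [← hz.per_mul ((a + o) % 9) ((a + o) / 9), Nat.mod_add_div]
  rw [e]
  rintro (f | f | f)
  · exact (ha o ho).1 (congrArg Fin.val (h1 _ f))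
  · exact (ha o ho).2.1 (congrArg Fin.val (h2 _ f))
  · exact (ha o ho).2.2 (congrArg Fin.val (h3 _ f))

theorem core [Finite V] [Nonempty V] (h : Nice G Sp) (hno : ∀ z n, IsCyc G z n → Gp n) :
    False := by
  classical
  obtain ⟨z, c, hz, hmax⟩ := per_max h hno
  have hc := hz.cyc
  have gc := hno z c hc
  have c5 : 5 ≤ c := by
    have := hc.three
    have := gc 2
    omega
  choose! τ t1 t2 using hz.out
  have t1' : ∀ i, z i ∉ Sp → τ (z i) ∈ (range z)ᶜ := fun i a => t1 _ ⟨i, rfl⟩ a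
  have t2' : ∀ i, z i ∉ Sp → G.Adj (z i) (τ (z i)) := fun i a => t2 _ ⟨i, rfl⟩ a
  have back : ∀ k, G.Adj (z k) (z (k + c - 1)) := fun k => by
    have := (hc.adj (k + c - 1)).symm
    rwa [show k + c - 1 + 1 = k + c by omega, hc.per] at this
  have nb : ∀ k b, G.Adj (z k) b →
      b = z (k + 1) ∨ b = z (k + c - 1) ∨ (z k ∉ Sp ∧ b = τ (z k)) := fun k b a => by
    have n := hc.inj (k + 1) (k + c - 1) (by omega) (by omega)
    by_cases s : z k ∈ Sp
    · exact (h.le2 _ s _ _ _ (hc.adj k) (back k) a n).imp_right Or.inl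
    · exact (h.le3 _ _ _ _ _ (hc.adj k) (back k) (t2' k s) a n (fun e => t1' k s ⟨_, e⟩)
        fun e => t1' k s ⟨_, e⟩).imp_right (Or.imp_right fun e => ⟨s, e⟩)
  have nadj : ∀ k, z k ∈ Sp → z (k + 1) ∉ Sp := fun k a b => by
    refine (hc.adj k).ne (h.cut {z k, z (k + 1)} (z k) (z (k + c - 1)) (z (k + 1)) (z (k + 2)) ?_
      (z (k + 2)) (z (k + 3)) (hc.adj _).ne ?_ ?_ (Or.inl rfl) (Or.inr rfl))
    · rintro u (rfl | rfl) w hw e
      · rcases nb _ _ e with f | f | f
        · exact absurd (Or.inr f) hw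
        · exact Or.inl ⟨rfl, f⟩
        · exact absurd a f.1
      · rcases nb _ _ e with f | f | f
        · exact Or.inr ⟨rfl, f⟩
        · exact absurd (Or.inl (by rw [f, show k + 1 + c - 1 = k + c by omega, hc.per])) hw
        · exact absurd b f.1
    · rintro (e | e) <;> exact hc.inj _ _ (by omega) (by omega) e.symm
    · rintro (e | e) <;> exact hc.inj _ _ (by omega) (by omega) e.symm
  set d : ℕ → ℕ → ℕ := fun i j => sInf {n | Wk G (range z)ᶜ (τ (z i)) (τ (z j)) n} with hd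
  have dle : ∀ i j n, Wk G (range z)ᶜ (τ (z i)) (τ (z j)) n → d i j ≤ n :=
    fun i j n a => Nat.sInf_le a
  have dwk : ∀ i j, z i ∉ Sp → z j ∉ Sp → Wk G (range z)ᶜ (τ (z i)) (τ (z j)) (d i j) :=
    fun i j a b => Nat.sInf_mem (s := {n | Wk G (range z)ᶜ (τ (z i)) (τ (z j)) n})
      (hz.con _ (t1' i a) _ (t1' j b))
  have ear : ∀ i j, i < j → j < i + c → z i ∉ Sp → z j ∉ Sp → Gp (j - i + d j i + 2) := by
    intro i j a b si sj
    obtain ⟨p, hp, p0, pm⟩ := dwk j i sj si
    have g : Geo G (range z)ᶜ p (d j i) := ⟨hp, fun n e => dle j i n (by rwa [p0, pm] at e)⟩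
    obtain ⟨z', hz', -⟩ := join (G := G) (p := fun k => z (i + k)) (q := p) (n := j - i)
      (m := d j i) (by omega) (fun k _ => hc.adj _) hp.1
      (fun k l x y => hc.inj _ _ (by omega) (by omega))
      (fun k l x y e => by have := g.inj (by omega) y e; omega)
      (fun k _ l y e => hp.2 l y ⟨_, e⟩)
      (by rw [p0, show i + (j - i) = j by omega]; exact t2' j sj)
      (by rw [pm]; exact (t2' i si).symm)
    exact hno _ _ hz'
  have stp : ∀ i n, 0 < n → n ≤ 2 → z i ∉ Sp → z (i + n) ∉ Sp →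
      (∀ k, 0 < k → k < n → z (i + k) ∈ Sp) → n + d (i + n) i + 2 ≤ c := by
    intro i n n0 n2 si sn sm
    have eq : {u | ∃ k ≤ n, z (i + k) = u} ∪ {u | ∃ k, i + n < k ∧ k < i + c ∧ z k = u}
        = range z := by
      ext u
      constructor
      · rintro (⟨k, -, e⟩ | ⟨k, -, -, e⟩) <;> exact ⟨_, e⟩
      · rintro ⟨k, rfl⟩
        obtain ⟨j, a, b, e⟩ := hc.idx i k
        by_cases f : j ≤ i + n
        · exact Or.inl ⟨j - i, by omega, by rw [← e]; congr 1; omega⟩
        · exact Or.inr ⟨j, by omega, b, e⟩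
    obtain ⟨z', m, hz', wk⟩ := per_of (R := {u | ∃ k, i + n < k ∧ k < i + c ∧ z k = u})
      (q := fun k => z (i + k)) (n := n) (y := τ (z (i + n))) (y' := τ (z i))
      (r := z (i + n + 1)) h (fun k _ => hc.adj _)
      (fun k l x y => hc.inj _ _ (by omega) (by omega))
      (by
        have k : ∀ a b, a ≤ b → i + n < a → b < i + c →
            Re G {u | ∃ k, i + n < k ∧ k < i + c ∧ z k = u} (z a) (z b) := fun a b x y w =>
          ⟨_, Wk.seg x (fun k _ _ => hc.adj k) fun k _ _ => ⟨k, by omega, by omega, rfl⟩⟩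
        rintro _ ⟨a, a1, a2, rfl⟩ _ ⟨b, b1, b2, rfl⟩
        rcases le_total a b with e | e
        · exact k a b e a1 b2
        · exact (k b a e b1 a2).symm)
      (fun k x ⟨l, a, b, e⟩ => hc.inj _ _ (by omega) (by omega) e.symm)
      ⟨i + n + 1, by omega, by omega, rfl⟩ (t2' _ sn) (t2' _ si) (by omega)
      (fun k x b hb a => by
        rcases nb _ _ a with e | e | ⟨e, f⟩
        · by_cases g : k = n
          · exact Or.inl ⟨i + k + 1, by omega, by omega, e.symm⟩
          · exact absurd e.symm (hb (k + 1) (by omega))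
        · by_cases g : k = 0
          · exact Or.inl ⟨i + k + c - 1, by omega, by omega, e.symm⟩
          · refine absurd ?_ (hb (k - 1) (by omega))
            rw [e, ← hc.per]; congr 1; omega
        · by_cases g : k = n
          · exact Or.inr (Or.inl ⟨g, g ▸ f⟩)
          · by_cases g' : k = 0
            · exact Or.inr (Or.inr ⟨g', by rw [f, g']; rfl⟩)
            · exact absurd (sm k (by omega) (by omega)) e)
      (fun k x s => by
        by_cases g : k = n
        · exact ⟨_, ⟨i + k + 1, by omega, by omega, rfl⟩, hc.adj _⟩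
        · by_cases g' : k = 0
          · exact ⟨_, ⟨i + k + c - 1, by omega, by omega, rfl⟩, back _⟩
          · exact absurd (sm k (by omega) (by omega)) s)
      (by rw [eq]; exact ⟨_, dwk _ _ sn si⟩)
    rw [eq] at wk
    have := dle _ _ _ wk
    have := hmax _ _ hz'
    omega
  have dsy : ∀ i j, z i ∉ Sp → z j ∉ Sp → d i j = d j i := fun i j a b =>
    le_antisymm (dle _ _ _ (dwk _ _ b a).symm) (dle _ _ _ (dwk _ _ a b).symm)
  have dper : ∀ i j, d (i + c) j = d i j := fun i j => by simp only [hd, hc.per]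
  obtain ⟨i, c1, c2⟩ : ∃ i, 2 * 2 ^ i < c ∧ c ≤ 4 * 2 ^ i := by
    have a := Nat.pow_pred_clog_lt_self (b := 2) (by norm_num) (show 1 < c by omega)
    have b := Nat.le_pow_clog (b := 2) (by norm_num) c
    obtain ⟨i, e⟩ : ∃ i, Nat.clog 2 c = i + 2 := by
      refine ⟨Nat.clog 2 c - 2, ?_⟩
      by_contra f
      have : Nat.clog 2 c ≤ 1 := by omega
      have := Nat.pow_le_pow_right (show 0 < 2 by norm_num) this
      omega
    rw [e] at a b
    refine ⟨i, ?_, ?_⟩
    · rwa [show (i + 2).pred = i + 1 from rfl, pow_succ, mul_comm] at a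
    · rwa [pow_add, mul_comm] at b
  have c3 : 3 * c < 8 * 2 ^ i := by
    have := gc (i + 2)
    rw [pow_add] at this
    omega
  have hH : 2 ≤ 2 ^ i := by omega
  obtain ⟨a1, l1, u1⟩ : ∃ a, 6 * a + 4 * 2 ^ i ≤ 3 * c + 3 ∧ 3 * c ≤ 6 * a + 4 * 2 ^ i + 2 :=
    ⟨(3 * c + 3 - 4 * 2 ^ i) / 6, by omega, by omega⟩
  obtain ⟨a2, l2, u2⟩ : ∃ a, 6 * a + 2 * 2 ^ i ≤ 3 * c + 3 ∧ 3 * c ≤ 6 * a + 2 * 2 ^ i + 2 :=
    ⟨(3 * c + 3 - 2 * 2 ^ i) / 6, by omega, by omega⟩
  obtain ⟨a, g0, g1, g2⟩ : ∃ a, z (a + 0) ∉ Sp ∧ z (a + a1) ∉ Sp ∧ z (a + a2) ∉ Sp := by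
    obtain ⟨s1, s2, s3, hs⟩ := h.few
    by_cases e : 10 ≤ c
    · obtain ⟨a, ha⟩ := pick hc e s1 s2 s3 a1 a2
      exact ⟨a, fun f => ha _ (by simp) (hs _ f), fun f => ha _ (by simp) (hs _ f),
        fun f => ha _ (by simp) (hs _ f)⟩
    have := gc 3
    rcases (show c = 9 ∨ c = 5 by omega) with rfl | rfl
    · obtain ⟨a, ha⟩ := pick9 hc s1 s2 s3
      have : 2 ^ i = 4 := by omega
      obtain rfl : a1 = 2 := by omega
      obtain rfl : a2 = 3 := by omega
      exact ⟨a, fun f => ha _ (by simp) (hs _ f), fun f => ha _ (by simp) (hs _ f),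
        fun f => ha _ (by simp) (hs _ f)⟩
    · have all : ∀ k, z k ∉ Sp := fun k s => by
        have s' : z (k + 4 + 1) ∈ Sp := by rwa [Nat.add_assoc, hc.per]
        have x : z (k + 4) ∉ Sp := fun f => nadj _ f s'
        have y : z (k + 4 + 2) ∉ Sp := nadj _ s'
        have e1 := stp (k + 4) 2 (by omega) le_rfl x y fun l _ _ => by
          rwa [show l = 1 by omega]
        have e2 := ear (k + 4) (k + 4 + 2) (by omega) (by omega) x y 2
        have e3 := ear (k + 4 + 2) (k + 4 + 5) (by omega) (by omega) y (by rwa [hc.per]) 3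
        rw [dper, dsy _ _ x y] at e3
        omega
      exact ⟨0, all _, all _, all _⟩
  have g0' : z a ∉ Sp := g0
  refine slide (F := fun x => x + d (a + x) a + 2) (good := fun x => z (a + x) ∉ Sp) c1 c3 ?_ ?_ ?_
    g1 g2 l1 (by omega) l2 (by omega) (by omega) hH
  · have := dle a a 0 (Wk.refl (t1' a g0))
    simp only [Nat.add_zero]
    omega
  · intro x x0 xc g
    have k : ∀ n, 0 < n → n ≤ 2 → n ≤ x → z (a + (x - n)) ∉ Sp →
        (∀ y, x - n < y → y < x → z (a + y) ∈ Sp) → ∃ b < x, z (a + b) ∉ Sp ∧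
        (∀ y, b < y → y < x → ¬ z (a + y) ∉ Sp) ∧ x + d (a + x) a + 2 ≤ b + d (a + b) a + 2 + c := by
      intro n n0 n2 nx s sm
      have e : a + (x - n) + n = a + x := by omega
      have := stp (a + (x - n)) n n0 n2 s (by rwa [e]) fun k _ _ => by
        rw [Nat.add_assoc]; exact sm _ (by omega) (by omega)
      rw [e] at this
      have := dle _ _ _ ((dwk _ _ g s).trans (dwk _ _ s g0'))
      exact ⟨x - n, by omega, s, fun y p q => not_not.2 (sm y p q), by omega⟩
    by_cases s : z (a + (x - 1)) ∈ Sp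
    · have : x ≠ 1 := fun e => g0 (by rwa [e] at s)
      refine k 2 (by omega) le_rfl (by omega) (fun f => nadj _ f ?_) fun y p q => by
        rwa [show y = x - 1 by omega]
      rwa [show a + (x - 2) + 1 = a + (x - 1) by omega]
    · exact k 1 (by omega) (by omega) x0 s fun y p q => by omega
  · intro x x0 xc g
    have e1 := ear a (a + x) (by omega) (by omega) g0 g
    have e2 := ear (a + x) (a + c) (by omega) (by omega) g (by rwa [hc.per])
    rw [dper, dsy _ _ g0' g] at e2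
    refine ⟨by omega, by convert e1 using 1; omega, by convert e2 using 1; omega⟩

end Pool.Agent.P.MP_bb4f54_co.CF
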