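import Pool.Agent.P.MP_bb4f54_co.CF.Core

/-! Every cubic graph has a cycle of length `l` with `l ≤ 2 ^ k ≤ 3 l / 2`. -/

set_option autoImplicit false

namespace Pool.Agent.P.MP_bb4f54_co.CF

open Finset

variable {V : Type} {G : SimpleGraph V}

/-- Every vertex has exactly three neighbours. -/
def Cub (G : SimpleGraph V) : Prop := ∀ v, ∃ a b c, a ≠ b ∧ a ≠ c ∧ b ≠ c ∧
  ∀ w, G.Adj v w ↔ w = a ∨ w = b ∨ w = c

open Classical in
/-- The number of edges from `Y` to `Z`. -/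
noncomputable def Ed (G : SimpleGraph V) (Y Z : Finset V) : ℕ :=
  #((Y ×ˢ Z).filter fun p => G.Adj p.1 p.2)

theorem Ed_comm (Y Z : Finset V) : Ed G Y Z = Ed G Z Y := by
  classical
  have k : ∀ Y Z, Ed G Y Z ≤ Ed G Z Y := fun Y Z =>
    card_le_card_of_injOn Prod.swap (fun p hp => by
      simp only [coe_filter, mem_product, Set.mem_ofPred_eq] at hp ⊢
      exact ⟨⟨hp.1.2, hp.1.1⟩, hp.2.symm⟩) Prod.swap_injective.injOn
  exact le_antisymm (k _ _) (k _ _)

theorem Ed_le [DecidableEq V] {Y Z : Finset V} {s : Finset (V × V)}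
    (h : ∀ u ∈ Y, ∀ w ∈ Z, G.Adj u w → (u, w) ∈ s) : Ed G Y Z ≤ #s :=
  card_le_card fun p hp => by
    simp only [mem_filter, mem_product] at hp
    exact h _ hp.1.1 _ hp.1.2 hp.2

theorem le_Ed [DecidableEq V] {Y Z : Finset V} {s : Finset (V × V)}
    (h : ∀ p ∈ s, p.1 ∈ Y ∧ p.2 ∈ Z ∧ G.Adj p.1 p.2) : #s ≤ Ed G Y Z :=
  card_le_card fun p hp => by
    simp only [mem_filter, mem_product]
    exact ⟨⟨(h p hp).1, (h p hp).2.1⟩, (h p hp).2.2⟩

theorem Ed_split [Fintype V] [DecidableEq V] {X Y : Finset V} (h : Y ⊆ X) :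
    Ed G Y Yᶜ ≤ Ed G Y Xᶜ + Ed G Y (X \ Y) ∧ Ed G Y Xᶜ + Ed G (X \ Y) Xᶜ ≤ Ed G X Xᶜ := by
  classical
  constructor
  · refine le_trans (card_le_card fun p hp => ?_) (card_union_le _ _)
    simp only [mem_filter, mem_product, mem_union, mem_compl, mem_sdiff] at hp ⊢
    tauto
  · unfold Ed
    rw [← card_union_of_disjoint]
    · refine card_le_card fun p hp => ?_
      simp only [mem_filter, mem_product, mem_union, mem_compl, mem_sdiff] at hp ⊢
      have := @h p.1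
      tauto
    · rw [disjoint_left]
      intro p a b
      simp only [mem_filter, mem_product, mem_sdiff] at a b
      tauto

theorem Cub.le3 (h : Cub G) (v a b c d : V) (ha : G.Adj v a) (hb : G.Adj v b) (hc : G.Adj v c)
    (hd : G.Adj v d) (ab : a ≠ b) (ac : a ≠ c) (bc : b ≠ c) : d = a ∨ d = b ∨ d = c := by
  obtain ⟨x, y, z, -, -, -, k⟩ := h v
  rw [k] at ha hb hc hd
  grind

theorem Cub.ge3 (h : Cub G) (v a b : V) : ∃ c, G.Adj v c ∧ c ≠ a ∧ c ≠ b := by
  obtain ⟨x, y, z, _, _, _, k⟩ := h v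
  by_contra c
  push Not at c
  have := c x ((k _).2 (by simp))
  have := c y ((k _).2 (by simp))
  have := c z ((k _).2 (by simp))
  by_cases x = a <;> by_cases y = a <;> by_cases z = a <;> simp_all

theorem cubic [Finite V] [Nonempty V] (h : Cub G) : ∃ z n, IsCyc G z n ∧ ¬ Gp n := by
  classical
  have := Fintype.ofFinite V
  by_contra hno
  push Not at hno
  obtain ⟨X, ⟨x2, x3⟩, xmin⟩ := Set.exists_min_image
    {X : Finset V | 2 ≤ #X ∧ Ed G X Xᶜ ≤ 3} card (Set.toFinite _) ⟨univ, by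
      obtain ⟨v⟩ := ‹Nonempty V›
      obtain ⟨a, b, -, ab, -⟩ := h v
      exact ⟨one_lt_card.2 ⟨a, mem_univ _, b, mem_univ _, ab⟩, by simp [Ed]⟩⟩
  have small : ∀ Y ⊆ X, Y ≠ X → Ed G Y Xᶜ + Ed G Y (X \ Y) ≤ 3 → #Y ≤ 1 := fun Y a b c => by
    by_contra d
    have := xmin Y ⟨by omega, (Ed_split a).1.trans c⟩
    have := card_lt_card (Finset.ssubset_iff_subset_ne.2 ⟨a, b⟩)
    omega
  have x4 : 3 ≤ #X := by
    by_contra c
    obtain ⟨u, v, uv, rfl⟩ := card_eq_two.1 (show #X = 2 by omega)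
    obtain ⟨a, a1, a2, -⟩ := h.ge3 u v v
    obtain ⟨b, b1, b2, b3⟩ := h.ge3 u v a
    obtain ⟨c, c1, c2, -⟩ := h.ge3 v u u
    obtain ⟨d, d1, d2, d3⟩ := h.ge3 v u c
    have := le_Ed (G := G) (Y := {u, v}) (Z := {u, v}ᶜ) (s := {(u, a), (u, b), (v, c), (v, d)}) (by
      simp [a1, b1, c1, d1, a2, b2, c2, d2, a1.ne', b1.ne', c1.ne', d1.ne'])
    rw [card_eq_four.2 ⟨_, _, _, _, by simp [b3.symm], by simp [uv], by simp [uv], by simp [uv],
      by simp [uv], by simp [d3.symm], rfl⟩] at this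
    omega
  have one : ∀ v ∈ X, ∀ a ∉ X, ∀ b ∉ X, G.Adj v a → G.Adj v b → a = b := by
    intro v hv a ha b hb va vb
    by_contra ab
    obtain ⟨c, vc, ca, cb⟩ := h.ge3 v a b
    have e1 := le_Ed (G := G) (Y := {v}) (Z := Xᶜ) (s := {(v, a), (v, b)}) (by simp [*])
    rw [card_pair (by simp [ab])] at e1
    have e2 := (Ed_split (G := G) (singleton_subset_iff.2 hv)).2
    have e3 := Ed_le (G := G) (Y := X \ {v}) (Z := X \ (X \ {v})) (s := {(c, v)}) (by
      intro u hu w hw uw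
      have : w = v := by
        simp only [mem_sdiff, mem_singleton] at hw
        tauto
      subst this
      rcases h.le3 _ _ _ _ _ va vb vc uw.symm ab ca.symm cb.symm with e | e | e
      · exact absurd (e ▸ (mem_sdiff.1 hu).1) ha
      · exact absurd (e ▸ (mem_sdiff.1 hu).1) hb
      · simp [e])
    have := small (X \ {v}) sdiff_subset (fun e => by
      have := e.symm ▸ hv
      simp at this) (by rw [card_singleton] at e3; omega)
    rw [card_sdiff_of_subset (singleton_subset_iff.2 hv), card_singleton] at this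
    omega
  have : Nonempty (X : Set V) := let ⟨v, hv⟩ := card_pos.1 (show 0 < #X by omega); ⟨⟨v, hv⟩⟩
  refine core (G := G.induce (X : Set V)) (Sp := {v | ∃ w ∉ X, G.Adj v w}) ⟨?_, ?_, ?_, ?_, ?_, ?_⟩
    fun z n hz => hno (fun i => z i) n ⟨hz.three, hz.adj, fun i => congrArg _ (hz.per i),
      fun i j a b e => hz.inj i j a b (Subtype.ext e)⟩
  · intro v a b c d ha hb hc hd ab ac bc
    simpa only [Subtype.ext_iff] using h.le3 v.1 a b c d ha hb hc hd (Subtype.coe_ne_coe.2 ab)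
      (Subtype.coe_ne_coe.2 ac) (Subtype.coe_ne_coe.2 bc)
  · intro v hv a b
    obtain ⟨c, x, y, w⟩ := h.ge3 v.1 a b
    exact ⟨⟨c, by_contra fun e => hv ⟨c, e, x⟩⟩, x, fun e => y (congrArg Subtype.val e),
      fun e => w (congrArg Subtype.val e)⟩
  · intro v a
    obtain ⟨b, x, y, -⟩ := h.ge3 v.1 a a
    obtain ⟨c, x', y', w⟩ := h.ge3 v.1 a b
    by_cases e : b ∈ X
    · exact ⟨⟨b, e⟩, x, fun e => y (congrArg Subtype.val e)⟩
    · exact ⟨⟨c, by_contra fun f => w (one v v.2 c f b e x' x)⟩, x', fun e => y' (congrArg Subtype.val e)⟩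
  · rintro v ⟨w, hw, vw⟩ a b d ha hb hd ab
    rcases h.le3 v.1 a b w d ha hb vw hd (Subtype.coe_ne_coe.2 ab) (fun e => hw (e ▸ a.2))
      (fun e => hw (e ▸ b.2)) with e | e | e
    · exact Or.inl (Subtype.ext e)
    · exact Or.inr (Subtype.ext e)
    · exact absurd (e ▸ d.2) hw
  · have : #(univ.filter fun v : (X : Set V) => ∃ w ∉ X, G.Adj v w) ≤ 3 := by
      refine le_trans ?_ x3
      choose! f f1 f2 using fun v : (X : Set V) => @id (∃ w ∉ X, G.Adj v w)
      refine card_le_card_of_injOn (fun v => (v.1, f v)) (fun v hv => ?_) fun u _ v _ e =>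
        Subtype.ext (congrArg Prod.fst e)
      simp only [coe_filter, mem_univ, true_and, Set.mem_ofPred_eq, mem_product, mem_compl] at hv ⊢
      exact ⟨⟨v.2, f1 v hv⟩, f2 v hv⟩
    obtain ⟨s, s1, s2⟩ := exists_superset_card_eq this (by simpa using x4)
    obtain ⟨a, b, c, -, -, -, rfl⟩ := card_eq_three.1 s2
    exact ⟨a, b, c, fun v hv => by simpa using s1 (mem_filter.2 ⟨mem_univ v, hv⟩)⟩
  · intro Y a b a' b' hY x y xy hx hy
    set Z : Finset V := X.filter fun v => ∃ hv : v ∈ (X : Set V), (⟨v, hv⟩ : (X : Set V)) ∈ Y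
      with hZ
    have mz : ∀ v : (X : Set V), v.1 ∈ Z ↔ v ∈ Y := fun v => by simp [hZ]
    have zx : Z ⊆ X := filter_subset _ _
    have e1 : Ed G Z (X \ Z) ≤ 2 := le_trans (Ed_le (s := {(a.1, b.1), (a'.1, b'.1)}) (by
      intro u hu w hw uw
      rcases hY ⟨u, zx hu⟩ ((mz _).1 hu) ⟨w, (mem_sdiff.1 hw).1⟩
        (fun e => (mem_sdiff.1 hw).2 ((mz _).2 e)) uw with ⟨rfl, rfl⟩ | ⟨rfl, rfl⟩ <;> simp))
      card_le_two
    have e2 := (Ed_split (G := G) zx).2
    intro u hu v hv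
    by_cases c : Ed G Z Xᶜ ≤ 1
    · exact Subtype.ext (card_le_one.1 (small Z zx (fun e => hx ((mz x).1 (e.symm ▸ x.2)))
        (by omega)) _ ((mz _).2 hu) _ ((mz _).2 hv))
    · refine absurd (Subtype.ext (card_le_one.1 (small (X \ Z) sdiff_subset
        (fun e => (mem_sdiff.1 (e.symm ▸ u.2 : u.1 ∈ X \ Z)).2 ((mz _).2 hu)) ?_) _
        (mem_sdiff.2 ⟨x.2, fun e => hx ((mz _).1 e)⟩) _
        (mem_sdiff.2 ⟨y.2, fun e => hy ((mz _).1 e)⟩))) xy
      rw [Finset.sdiff_sdiff_eq_self zx, Ed_comm (X \ Z) Z]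
      omega

end Pool.Agent.P.MP_bb4f54_co.CF
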