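import Pool.Agent.P.MP_bb4f54_co.CF.Cubic

/-! Cubic claw-free graphs: contract the triangles, find a cycle, and lift it. -/

set_option autoImplicit false

namespace Pool.Agent.P.MP_bb4f54_co.CF

open Set

variable {V : Type} {G : SimpleGraph V}

theorem cyc4 {a b c d : V} (h1 : G.Adj a b) (h2 : G.Adj b c) (h3 : G.Adj c d) (h4 : G.Adj d a)
    (ac : a ≠ c) (bd : b ≠ d) : ∃ z, IsCyc G z 4 := by
  have k : ∀ x y : V, G.Adj x y → (∀ i < 1, G.Adj (if i = 0 then x else y)
      (if i + 1 = 0 then x else y)) ∧ ∀ i j, i < j → j ≤ 1 →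
      (if i = 0 then x else y) ≠ if j = 0 then x else y := fun x y h =>
    ⟨fun i hi => by rw [if_pos (by omega), if_neg (by omega)]; exact h, fun i j _ _ => by
      rw [if_pos (by omega), if_neg (by omega)]; exact h.ne⟩
  obtain ⟨z, hz, -⟩ := join (G := G) (p := fun i => if i = 0 then a else b)
    (q := fun i => if i = 0 then c else d) (n := 1) (m := 1) (by omega) (k a b h1).1 (k c d h3).1
    (k a b h1).2 (k c d h3).2 (fun i _ j _ => by
      split_ifs
      exacts [ac, h4.ne', h2.ne, bd]) (by simpa) (by simpa)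
  exact ⟨z, hz⟩

theorem lift {Q : Type} {c : V → Q} {o : V → V} {Z : ℕ → Q} {l r : ℕ} (h3 : 3 ≤ l) (hr : r ≤ l)
    (ha : ∀ u w, c u = c w → u ≠ w → G.Adj u w)
    (hb : ∀ u w, ∃ m, c m = c u ∧ m ≠ u ∧ m ≠ w) (ho : ∀ v, G.Adj v (o v)) (oo : ∀ v, o (o v) = v)
    (per : Z l = Z 0) (inj : ∀ i j, i < j → j < i + l → Z i ≠ Z j)
    (hx : ∀ i, ∃ v, c v = Z i ∧ c (o v) = Z (i + 1)) : ∃ z, IsCyc G z (2 * l + r) := by
  choose x x1 x2 using hx
  set y : ℕ → V := fun i => o (x (if i = 0 then l - 1 else i - 1)) with hy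
  have y1 : ∀ i, c (y i) = Z i := fun i => by
    simp only [hy, x2]
    split_ifs with e
    · rw [show l - 1 + 1 = l by omega, per, e]
    · congr 1; omega
  have yx : ∀ i, y i ≠ x i := fun i e => by
    have a := x2 i
    rw [← e] at a
    simp only [hy, oo, x1] at a
    split_ifs at a with f
    · exact inj _ _ (by omega) (by omega) a.symm
    · exact inj _ _ (by omega) (by omega) a
  choose m m1 m2 m3 using fun i => hb (y i) (x i)
  set pt : ℕ → ℕ → V := fun i j => if j = 0 then y i else if j = 1 then m i else x i with hp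
  have p1 : ∀ i j, c (pt i j) = Z i := fun i j => by
    simp only [hp]
    split_ifs
    exacts [y1 i, (m1 i).trans (y1 i), x1 i]
  have p2 : ∀ i j k, j < 3 → k < 3 → j ≠ k → pt i j ≠ pt i k := fun i j k a b e => by
    have := yx i; have := m2 i; have := m3 i
    simp only [hp]
    split_ifs <;> first | omega | assumption | (symm; assumption)
  obtain ⟨bl, ps, b1, b2, b3, b4⟩ : ∃ bl ps : ℕ → ℕ, (∀ n < 2 * l + r, bl n < l ∧ ps n < 3) ∧
      (∀ n k, bl n = bl k → ps n = ps k → n = k) ∧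
      (∀ n, (bl (n + 1) = bl n ∧ ps n ≠ ps (n + 1)) ∨
        (bl (n + 1) = bl n + 1 ∧ ps n = 2 ∧ ps (n + 1) = 0)) ∧
      bl (2 * l + r - 1) = l - 1 ∧ ps (2 * l + r - 1) = 2 ∧ bl 0 = 0 ∧ ps 0 = 0 := by
    refine ⟨fun n => if n < 3 * r then n / 3 else r + (n - 3 * r) / 2,
      fun n => if n < 3 * r then n % 3 else 2 * ((n - 3 * r) % 2), fun n _ => ?_, fun n k => ?_,
      fun n => ?_, ?_⟩ <;> simp only [] <;> split_ifs <;> omega
  obtain ⟨z, hz, -⟩ := cyc_of_fin (G := G) (u := fun n => pt (bl n) (ps n)) (N := 2 * l + r)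
    (by omega) (fun n hn => by
      rcases b3 n with ⟨e, f⟩ | ⟨e, f, g⟩
      · rw [e]
        exact ha _ _ (by rw [p1, p1]) (p2 _ _ _ (b1 n (by omega)).2 (b1 _ hn).2 f)
      · rw [e, f, g]
        simpa [hp, hy] using ho _)
    (by
      rw [b4.1, b4.2.1, b4.2.2.1, b4.2.2.2]
      simpa [hp, hy] using ho _)
    (fun i j a b e => by
      have f := congrArg c e
      rw [p1, p1] at f
      have := b1 i (by omega)
      have := b1 j b
      have g : bl i = bl j := by
        rcases lt_trichotomy (bl i) (bl j) with g | g | g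
        · exact absurd f (inj _ _ g (by omega))
        · exact g
        · exact absurd f.symm (inj _ _ g (by omega))
      rw [g] at e
      exact p2 _ _ _ (by omega) (by omega) (fun q => by have := b2 i j g q; omega) e)
  exact ⟨z, hz⟩

theorem clawfree [Finite V] [Nonempty V] (h : Cub G)
    (hc : ∀ v a b c, G.Adj v a → G.Adj v b → G.Adj v c → a ≠ b → a ≠ c → b ≠ c →
      G.Adj a b ∨ G.Adj a c ∨ G.Adj b c) : ∃ k, 2 ≤ k ∧ ∃ z, IsCyc G z (2 ^ k) := by
  by_cases c4 : ∃ z, IsCyc G z 4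
  · exact ⟨2, le_rfl, c4⟩
  have no4 : ∀ a b c d, G.Adj a b → G.Adj b c → G.Adj c d → G.Adj d a → a ≠ c → b ≠ d → False :=
    fun a b c d h1 h2 h3 h4 x y => c4 (cyc4 h1 h2 h3 h4 x y)
  have ex : ∀ v, ∃ a b o, G.Adj a b ∧ a ≠ o ∧ b ≠ o ∧ ∀ w, G.Adj v w ↔ w = a ∨ w = b ∨ w = o := by
    intro v
    obtain ⟨a, b, c, ab, ac, bc, k⟩ := h v
    rcases hc v a b c ((k _).2 (by simp)) ((k _).2 (by simp)) ((k _).2 (by simp)) ab ac bc
      with e | e | e
    · exact ⟨a, b, c, e, ac, bc, k⟩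
    · exact ⟨a, c, b, e, ab, bc.symm, fun w => by rw [k]; tauto⟩
    · exact ⟨b, c, a, e, ab.symm, ac.symm, fun w => by rw [k]; tauto⟩
  choose A B o ab ao bo nb using ex
  have vA : ∀ v, G.Adj v (A v) := fun v => (nb v _).2 (by simp)
  have vB : ∀ v, G.Adj v (B v) := fun v => (nb v _).2 (by simp)
  have vo : ∀ v, G.Adj v (o v) := fun v => (nb v _).2 (by simp)
  have nt : ∀ v x, G.Adj v x → G.Adj (o v) x → False := fun v x a b => by
    rcases (nb v x).1 a with rfl | rfl | rfl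
    · exact no4 _ _ _ _ (vB v) (ab v).symm b.symm (vo v).symm (vA v).ne (bo v)
    · exact no4 _ _ _ _ (vA v) (ab v) b.symm (vo v).symm (vB v).ne (ao v)
    · exact b.ne rfl
  have oo : ∀ v, o (o v) = v := fun v => by
    rcases (nb _ v).1 (vo v).symm with e | e | e
    · exact (nt v _ (by have := ab (o v); rwa [← e] at this) (vB _)).elim
    · exact (nt v _ (by have := (ab (o v)).symm; rwa [← e] at this) (vA _)).elim
    · exact e.symm
  set cl : V → Set V := fun v => {v, A v, B v} with hcl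
  have tr : ∀ u v w, G.Adj u v → G.Adj u w → G.Adj v w → cl u = {u, v, w} := by
    intro u v w a b c
    have x : v ≠ o u := fun e => nt u w b (e ▸ c)
    have y : w ≠ o u := fun e => nt u v a (e ▸ c.symm)
    have := c.ne
    rcases (nb u v).1 a with rfl | rfl | e <;> rcases (nb u w).1 b with f | f | f <;>
      first | contradiction | exact absurd f.symm this | (rw [f]; done) | rw [f, pair_comm]
  have mem : ∀ u v, cl u = cl v ↔ u = v ∨ u = A v ∨ u = B v := fun u v => by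
    refine ⟨fun e => show u ∈ cl v from e ▸ Or.inl rfl, ?_⟩
    rintro (rfl | rfl | rfl)
    · rfl
    · rw [tr _ _ _ (vA v).symm (ab v) (vB v), insert_comm]
    · rw [tr _ _ _ (vB v).symm (ab v).symm (vA v), insert_comm, pair_comm]
  have ha : ∀ u w, cl u = cl w → u ≠ w → G.Adj u w := fun u w e n => by
    rcases (mem u w).1 e with rfl | rfl | rfl
    exacts [absurd rfl n, (vA w).symm, (vB w).symm]
  have d1 : ∀ v, cl (o v) ≠ cl v := fun v e => by
    rcases (mem _ _).1 e with f | f | f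
    exacts [(vo v).ne f.symm, ao v f.symm, bo v f.symm]
  have d2 : ∀ u w, cl u = cl w → u ≠ w → cl (o u) ≠ cl (o w) := fun u w e n f =>
    no4 _ _ _ _ (ha u w e n) (vo w) (ha _ _ f.symm fun g => n (by rw [← oo u, ← g, oo]))
      (vo u).symm (fun g => d1 w (g ▸ e)) fun g => d1 u (g ▸ e.symm)
  let c : V → range cl := rangeFactorization cl
  have ce : ∀ u w, c u = c w ↔ cl u = cl w := fun u w => Subtype.ext_iff
  let K : SimpleGraph (range cl) :=
    { Adj := fun S T => ∃ v, c v = S ∧ c (o v) = T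
      symm := ⟨fun _ _ ⟨v, a, b⟩ => ⟨o v, b, by rwa [oo]⟩⟩
      loopless := ⟨fun _ ⟨v, a, b⟩ => d1 v ((ce _ _).1 (b.trans a.symm))⟩ }
  have : Nonempty (range cl) := ‹Nonempty V›.map c
  have kc : Cub K := by
    intro S
    obtain ⟨v, rfl⟩ := rangeFactorization_surjective S
    have a : cl (A v) = cl v := (mem _ _).2 (by simp)
    have b : cl (B v) = cl v := (mem _ _).2 (by simp)
    refine ⟨c (o v), c (o (A v)), c (o (B v)), fun e => d2 _ _ a.symm (vA v).ne ((ce _ _).1 e),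
      fun e => d2 _ _ b.symm (vB v).ne ((ce _ _).1 e),
      fun e => d2 _ _ (a.trans b.symm) (ab v).ne ((ce _ _).1 e), fun T => ⟨?_, ?_⟩⟩
    · rintro ⟨u, e, rfl⟩
      rcases (mem _ _).1 ((ce _ _).1 e) with rfl | rfl | rfl <;> simp
    · rintro (rfl | rfl | rfl)
      exacts [⟨v, rfl, rfl⟩, ⟨A v, (ce _ _).2 a, rfl⟩, ⟨B v, (ce _ _).2 b, rfl⟩]
  obtain ⟨Z, l, hZ, hl⟩ := cubic kc
  simp only [Gp, not_forall, not_lt] at hl
  obtain ⟨k, k1, k2⟩ := hl
  have h3 := hZ.three
  obtain ⟨z, hz⟩ := lift (G := G) (c := c) (o := o) (Z := Z) (l := l) (r := 2 * 2 ^ k - 2 * l) h3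
    (by omega) (fun u w e => ha u w ((ce _ _).1 e)) (fun u w => by
      by_cases e : A u = w
      · exact ⟨B u, (ce _ _).2 ((mem _ _).2 (by simp)), (vB u).ne', e ▸ (ab u).ne'⟩
      · exact ⟨A u, (ce _ _).2 ((mem _ _).2 (by simp)), (vA u).ne', e⟩) vo oo
    (by simpa using hZ.per 0) hZ.inj hZ.adj
  refine ⟨k + 1, ?_, z, by rwa [show 2 * l + (2 * 2 ^ k - 2 * l) = 2 ^ (k + 1) by
    rw [pow_succ]; omega] at hz⟩
  by_contra e
  obtain rfl : k = 0 := by omega
  omega

end Pool.Agent.P.MP_bb4f54_co.CF
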