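import Pool.Agent.P.MP_bb4f54_co.CF.Reroute
import Pool.Agent.P.MP_bb4f54_co.CF.Arith

/-! Cycles with connected complement. -/

set_option autoImplicit false

namespace Pool.Agent.P.MP_bb4f54_co.CF

open Set

variable {V : Type} {G : SimpleGraph V} {Sp : Set V}

/-- A cycle with connected complement whose vertices of degree three see the complement. -/
structure Per (G : SimpleGraph V) (Sp : Set V) (z : ℕ → V) (c : ℕ) : Prop where
  cyc : IsCyc G z c
  con : Conn G (range z)ᶜ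
  out : ∀ u ∈ range z, u ∉ Sp → ∃ t, t ∉ range z ∧ G.Adj u t

theorem per_of [Finite V] {R : Set V} {q : ℕ → V} {n : ℕ} {y y' r : V} (h : Nice G Sp)
    (hq : ∀ i < n, G.Adj (q i) (q (i + 1))) (iq : ∀ i j, i < j → j ≤ n → q i ≠ q j)
    (hR : Conn G R) (hWR : ∀ i ≤ n, q i ∉ R) (hr : r ∈ R) (avy : G.Adj (q n) y)
    (awy : G.Adj (q 0) y') (hne : n = 0 → y ≠ y')
    (hW : ∀ i ≤ n, ∀ b, (∀ j ≤ n, q j ≠ b) → G.Adj (q i) b →
      b ∈ R ∨ (i = n ∧ b = y) ∨ (i = 0 ∧ b = y'))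
    (hin : ∀ i ≤ n, q i ∉ Sp → ∃ t ∈ R, G.Adj (q i) t)
    (hy : Re G ({u | ∃ i ≤ n, q i = u} ∪ R)ᶜ y y') :
    ∃ z m, Per G Sp z (n + m + 2) ∧ Wk G ({u | ∃ i ≤ n, q i = u} ∪ R)ᶜ y y' m := by
  have hW' : ∀ a ∈ {u | ∃ i ≤ n, q i = u}, ∀ b ∉ {u | ∃ i ≤ n, q i = u}, G.Adj a b →
      b ∈ R ∨ (a = q n ∧ b = y) ∨ (a = q 0 ∧ b = y') := by
    rintro _ ⟨i, hi, rfl⟩ b hb a
    rcases hW i hi b (fun j hj e => hb ⟨j, hj, e⟩) a with e | ⟨rfl, e⟩ | ⟨rfl, e⟩
    · exact Or.inl e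
    · exact Or.inr (Or.inl ⟨rfl, e⟩)
    · exact Or.inr (Or.inr ⟨rfl, e⟩)
  obtain ⟨D, p, m, d1, d2, d3, hp, p0, pm, cov⟩ := reroute (W := {u | ∃ i ≤ n, q i = u})
    (v := q n) (w := q 0) h hR (disjoint_left.2 fun _ ⟨i, a, b⟩ => b ▸ hWR i a) ⟨n, le_rfl, rfl⟩
    ⟨0, Nat.zero_le _, rfl⟩ hr avy awy
    (fun e => hne (by_contra fun f => iq 0 n (by omega) le_rfl e.symm)) hW' hy
  have pW : ∀ i ≤ n, ∀ j ≤ m, q i ≠ p j := fun i a j b e => hp.pth.2 j b (Or.inl ⟨i, a, e⟩)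
  have pD : ∀ j ≤ m, p j ∉ D := fun j b e => hp.pth.2 j b (Or.inr e)
  obtain ⟨z, hz, hr⟩ := join (G := G) (p := q) (q := p) (n := n) (m := m) (by
      by_contra c
      exact hne (by omega) (by rw [← p0, ← pm, show m = 0 by omega])) hq hp.pth.1 iq
    (fun i j a b e => by have := hp.inj (by omega) b e; omega) pW (p0 ▸ avy) (pm ▸ awy.symm)
  have hD : ∀ x, x ∉ range z ↔ x ∈ D := fun x => by
    rw [hr]
    refine ⟨fun a => ?_, fun a b => ?_⟩
    · rcases cov x with b | b | b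
      · exact absurd (Or.inl b) a
      · exact b
      · exact absurd (Or.inr b) a
    · rcases b with b | ⟨j, b, rfl⟩
      · exact disjoint_left.1 d3 b a
      · exact pD j b a
  refine ⟨z, m, ⟨hz, by rwa [show (range z)ᶜ = D from Set.ext hD], fun u hu hs => ?_⟩,
    p, ⟨hp.pth.1, fun i hi a => hp.pth.2 i hi (a.imp_right fun b => d1 b)⟩, p0, pm⟩
  rcases (hr u).1 hu with ⟨i, hi, rfl⟩ | ⟨k, hk, rfl⟩
  · obtain ⟨t, a, b⟩ := hin i hi hs
    exact ⟨t, (hD t).2 (d1 a), b⟩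
  · obtain ⟨t, a, b, c⟩ := h.ge3 _ hs (if k = 0 then q n else p (k - 1))
      (if k = m then q 0 else p (k + 1))
    refine ⟨t, fun e => ?_, a⟩
    rcases (hr t).1 e with e | ⟨j, hj, rfl⟩
    · rcases hW' t e (p k) (fun ⟨i, f, g⟩ => pW i f k hk g) a.symm with f | ⟨f, g⟩ | ⟨f, g⟩
      · exact pD k hk (d1 f)
      · exact b (by rw [if_pos (hp.inj hk (Nat.zero_le _) (g.trans p0.symm)), f])
      · exact c (by rw [if_pos (hp.inj hk le_rfl (g.trans pm.symm)), f])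
    · rcases hp.chord hk hj a with f | f
      · exact c (by rw [if_neg (by omega), f])
      · exact b (by rw [if_neg (by omega), f]; rfl)

theorem no_tri (hno : ∀ z n, IsCyc G z n → Gp n) {a b c : V} (h1 : G.Adj a b) (h2 : G.Adj b c)
    (h3 : G.Adj c a) : False := by
  obtain ⟨z, hz, -⟩ := join (G := G) (p := fun i => if i = 0 then a else b) (q := fun _ => c)
    (n := 1) (m := 0) le_rfl (fun i hi => by obtain rfl : i = 0 := by omega
                                             simpa) (fun i hi => by omega)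
    (fun i j x y => by
      obtain rfl : i = 0 := by omega
      obtain rfl : j = 1 := by omega
      simpa using h1.ne) (fun i j x y => by omega)
    (fun i _ j _ => by
      split_ifs
      · exact h3.ne'
      · exact h2.ne) (by simpa) (by simpa)
  exact absurd (hno z _ hz 2 (by norm_num)) (by norm_num)

theorem per_exists [Finite V] [Nonempty V] (h : Nice G Sp) (hno : ∀ z n, IsCyc G z n → Gp n) :
    ∃ z c, Per G Sp z c := by
  obtain ⟨v, hv⟩ : ∃ v, v ∉ Sp := by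
    by_contra c
    push Not at c
    obtain ⟨s1, s2, s3, hs⟩ := h.few
    obtain ⟨v⟩ := ‹Nonempty V›
    obtain ⟨a, ha, -⟩ := h.ge2 v v
    obtain ⟨b, hb, ab⟩ := h.ge2 v a
    obtain ⟨d, hd, dv⟩ := h.ge2 a v
    have e : d = b := by
      have := hs v (c v); have := hs a (c a); have := hs b (c b); have := hs d (c d)
      have := ha.ne; have := hb.ne; have := hd.ne
      grind
    exact no_tri hno ha (e ▸ hd) hb.symm
  obtain ⟨r, ar, -⟩ := h.ge2 v v
  obtain ⟨y, ay, yr⟩ := h.ge2 v r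
  obtain ⟨y', ay', yr', yy⟩ := h.ge3 v hv r y
  have side : ∀ y y', G.Adj v y → G.Adj v y' → y ≠ r → y' ≠ r → y' ≠ y →
      ¬ Re G {v, r}ᶜ y y' → ∀ r1, (∀ u, Re G {v, r}ᶜ y u → G.Adj r u → u = r1) → False := by
    intro y y' ay ay' yr yr' yy hn r1 h1
    have yY : Re G {v, r}ᶜ y y := Re.refl (by simp [ay.ne', yr])
    have lv : ∀ u ∈ {u | Re G {v, r}ᶜ y u}, ∀ w ∉ {u | Re G {v, r}ᶜ y u}, G.Adj u w →
        (u = y ∧ w = v) ∨ (u = r1 ∧ w = r) := by
      intro u hu w hw a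
      have : w ∈ ({v, r} : Set V) := by_contra fun e => hw (Re.step hu a e)
      rcases this with rfl | rfl
      · rcases h.le3 _ _ _ _ _ ar ay ay' a.symm yr.symm yr'.symm yy.symm with e | e | e
        · exact absurd (Or.inr e) (Re.right hu)
        · exact Or.inl ⟨e, rfl⟩
        · exact absurd (e ▸ hu) hn
      · exact Or.inr ⟨h1 u hu a.symm, rfl⟩
    have sub := h.cut _ _ _ _ _ lv v r ar.ne (fun e => Re.right e (Or.inl rfl))
      fun e => Re.right e (Or.inr rfl)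
    obtain ⟨b, a, c⟩ := h.ge2 y v
    by_cases e : b ∈ {u | Re G {v, r}ᶜ y u}
    · exact a.ne (sub yY e)
    · rcases lv y yY b e a with ⟨-, f⟩ | ⟨-, f⟩
      · exact c f
      · exact no_tri hno ay (f ▸ a) ar.symm
  have hy : Re G {v, r}ᶜ y y' := by
    by_contra hn
    by_cases A : ∃ r1, ∀ u, Re G {v, r}ᶜ y u → G.Adj r u → u = r1
    · obtain ⟨r1, h1⟩ := A
      exact side y y' ay ay' yr yr' yy hn r1 h1
    push Not at A
    obtain ⟨u1, a1, b1, c1⟩ := A v
    obtain ⟨u2, a2, b2, c2⟩ := A u1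
    refine side y' y ay' ay yr' yr yy.symm (fun e => hn e.symm) v fun u a b => ?_
    rcases h.le3 _ _ _ _ _ ar.symm b1 b2 b c1.symm (fun e => a2.right (Or.inl e.symm)) c2.symm
      with e | e | e
    · exact e
    · exact absurd (a1.trans (e ▸ a.symm)) hn
    · exact absurd (a2.trans (e ▸ a.symm)) hn
  obtain ⟨z, m, hz, -⟩ := per_of (R := {r}) (q := fun _ => v) (n := 0) (y := y) (y' := y') h
    (fun i hi => by omega) (fun i j a b => by omega)
    (fun x a b c => by rw [show x = r from a, show b = r from c]; exact Re.refl rfl)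
    (fun _ _ => ar.ne) rfl ay ay' (fun _ => yy.symm)
    (fun i hi b _ a => by
      rcases h.le3 _ _ _ _ _ ar ay ay' a yr.symm yr'.symm yy.symm with e | e | e
      · exact Or.inl e
      · exact Or.inr (Or.inl ⟨by omega, e⟩)
      · exact Or.inr (Or.inr ⟨by omega, e⟩))
    (fun _ _ _ => ⟨r, rfl, ar⟩) (hy.mono (by
      rintro u hu (⟨i, -, e⟩ | e)
      · exact hu (Or.inl e.symm)
      · exact hu (Or.inr e)))
  exact ⟨z, _, hz⟩

theorem IsCyc.le_card [Finite V] {z : ℕ → V} {n : ℕ} (h : IsCyc G z n) : n ≤ Nat.card V := by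
  have := Nat.card_le_card_of_injective (fun i : Fin n => z i) fun i j e =>
    Fin.ext (h.eq e (by omega) (by omega))
  simpa using this

theorem per_max [Finite V] [Nonempty V] (h : Nice G Sp) (hno : ∀ z n, IsCyc G z n → Gp n) :
    ∃ z c, Per G Sp z c ∧ ∀ z' c', Per G Sp z' c' → c' ≤ c := by
  obtain ⟨z, c, hz⟩ := per_exists h hno
  have b : BddAbove {c | ∃ z, Per G Sp z c} := ⟨Nat.card V, fun _ ⟨_, h⟩ => h.cyc.le_card⟩
  obtain ⟨z, hz⟩ := Nat.sSup_mem (s := {c | ∃ z, Per G Sp z c}) ⟨c, z, hz⟩ b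
  exact ⟨z, _, hz, fun z' c' h' => le_csSup b ⟨z', h'⟩⟩

end Pool.Agent.P.MP_bb4f54_co.CF
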