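import Pool.Agent.P.MP_bb4f54_co.CF.Basic

/-! The rerouting lemma: cycles with connected complement through a prescribed path. -/

set_option autoImplicit false

namespace Pool.Agent.P.MP_bb4f54_co.CF

open Set

variable {V : Type} {G : SimpleGraph V}

/-- Degrees are three outside a set `Sp` of at most three vertices of degree two, and two edges
cut off at most one vertex. -/
structure Nice (G : SimpleGraph V) (Sp : Set V) : Prop where
  le3 : ∀ v a b c d, G.Adj v a → G.Adj v b → G.Adj v c → G.Adj v d → a ≠ b → a ≠ c → b ≠ c →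
    d = a ∨ d = b ∨ d = c
  ge3 : ∀ v ∉ Sp, ∀ a b, ∃ c, G.Adj v c ∧ c ≠ a ∧ c ≠ b
  ge2 : ∀ v a, ∃ b, G.Adj v b ∧ b ≠ a
  le2 : ∀ v ∈ Sp, ∀ a b d, G.Adj v a → G.Adj v b → G.Adj v d → a ≠ b → d = a ∨ d = b
  few : ∃ a b c, ∀ v ∈ Sp, v = a ∨ v = b ∨ v = c
  cut : ∀ (Y : Set V) (a b a' b' : V),
    (∀ u ∈ Y, ∀ w ∉ Y, G.Adj u w → (u = a ∧ w = b) ∨ (u = a' ∧ w = b')) →
    ∀ x y, x ≠ y → x ∉ Y → y ∉ Y → Y.Subsingleton

theorem reroute [Finite V] {Sp W R : Set V} {v w y y' r : V} (h : Nice G Sp) (hR : Conn G R)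
    (hWR : Disjoint W R) (hv : v ∈ W) (hw : w ∈ W) (hr : r ∈ R) (avy : G.Adj v y)
    (awy : G.Adj w y') (hne : v = w → y ≠ y')
    (hW : ∀ a ∈ W, ∀ b ∉ W, G.Adj a b → b ∈ R ∨ (a = v ∧ b = y) ∨ (a = w ∧ b = y'))
    (hy : Re G (W ∪ R)ᶜ y y') :
    ∃ D p m, R ⊆ D ∧ Conn G D ∧ Disjoint W D ∧ Geo G (W ∪ D)ᶜ p m ∧ p 0 = y ∧ p m = y' ∧
      ∀ x, x ∈ W ∨ x ∈ D ∨ ∃ i ≤ m, p i = x := by
  classical
  obtain ⟨D, ⟨d1, d2, d3, d4⟩, dmax⟩ := exists_max_image
    {D : Set V | R ⊆ D ∧ Conn G D ∧ Disjoint W D ∧ Re G (W ∪ D)ᶜ y y'} ncard (toFinite _)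
    ⟨R, Subset.rfl, hR, hWR, hy⟩
  obtain ⟨p, m, hp, p0, pm⟩ := d4.geo
  refine ⟨D, p, m, d1, d2, d3, hp, p0, pm, fun x => ?_⟩
  by_contra hx
  simp only [not_or, not_exists, not_and] at hx
  obtain ⟨xW, xD, xp⟩ := hx
  set U : Set V := {u | u ∉ W ∪ D ∧ ∃ d ∈ D, G.Adj d u} with hU
  have ess : ∀ u ∈ U, ¬ Re G (W ∪ insert u D)ᶜ y y' := by
    rintro u ⟨a, d, hd, b⟩ c
    have := dmax (insert u D) ⟨d1.trans (subset_insert _ _), d2.insert hd b,
      disjoint_insert_right.2 ⟨fun e => a (Or.inl e), d3⟩, c⟩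
    rw [ncard_insert_of_notMem fun e => a (Or.inr e)] at this
    omega
  have pin : ∀ u, ∀ i ≤ m, p i ≠ u → p i ∈ (W ∪ insert u D)ᶜ := by
    rintro u i hi a (b | b | b)
    · exact hp.pth.2 i hi (Or.inl b)
    · exact a b
    · exact hp.pth.2 i hi (Or.inr b)
  have onp : ∀ u ∈ U, ∃ k ≤ m, p k = u := fun u hu => by
    by_contra c
    push Not at c
    exact ess u hu ⟨m, p, ⟨hp.pth.1, fun i hi => pin u i hi (c i hi)⟩, p0, pm⟩
  set S : Set V := (W ∪ D ∪ U)ᶜ with hS
  set Y : Set V := {u | Re G S x u} with hY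
  have xS : x ∈ S := by
    rintro ((a | a) | a)
    · exact xW a
    · exact xD a
    · obtain ⟨k, b, c⟩ := onp x a; exact xp k b c
  have xY : x ∈ Y := Re.refl xS
  have YS : ∀ u ∈ Y, u ∈ S := fun u hu => Re.right hu
  have jump : ∀ i k j, i < k → k < j → j ≤ m → p i ∈ Y → p j ∈ Y → p k ∉ U := by
    intro i k j a b c e f g
    refine ess _ g (p0 ▸ pm ▸ Re.trans (y := p i) ⟨_, Wk.seg (Nat.zero_le i)
      (fun t _ _ => hp.pth.1 t (by omega)) fun t _ _ => pin _ t (by omega) fun q => ?_⟩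
      (Re.trans (y := p j) ((Re.trans (Re.symm e) f).mono ?_) ⟨_, Wk.seg c
      (fun t _ _ => hp.pth.1 t (by omega)) fun t _ _ => pin _ t (by omega) fun q => ?_⟩))
    · have := hp.inj (by omega) (by omega) q; omega
    · rintro u hu (q | q | q)
      · exact hu (Or.inl (Or.inl q))
      · exact hu (Or.inr (q ▸ g))
      · exact hu (Or.inl (Or.inr q))
    · have := hp.inj (by omega) (by omega) q; omega
  have pW : ∀ i ≤ m, p i ∉ W := fun i hi a => hp.pth.2 i hi (Or.inl a)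
  have pD : ∀ i ≤ m, p i ∉ D := fun i hi a => hp.pth.2 i hi (Or.inr a)
  have leave : ∀ u ∈ Y, ∀ b ∉ Y, G.Adj u b → ∃ t ≤ m, u = p t ∧
      ((b = (if t = 0 then v else p (t - 1)) ∧ ∀ i < t, p i ∉ Y) ∨
        (b = (if t = m then w else p (t + 1)) ∧ ∀ j, t < j → j ≤ m → p j ∉ Y)) := by
    intro u hu b hb a
    have uS := YS u hu
    have uW : u ∉ W := fun e => uS (Or.inl (Or.inl e))
    have uD : u ∉ D := fun e => uS (Or.inl (Or.inr e))
    have bS : b ∈ W ∪ D ∪ U := by_contra fun e => hb (Re.step hu a e)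
    rcases bS with (c | c) | c
    · rcases hW b c u uW a.symm with e | ⟨e, f⟩ | ⟨e, f⟩
      · exact absurd (d1 e) uD
      · exact ⟨0, Nat.zero_le _, f.trans p0.symm, Or.inl ⟨by simp [e], by simp⟩⟩
      · exact ⟨m, le_rfl, f.trans pm.symm, Or.inr ⟨by simp [e], fun j _ _ => by omega⟩⟩
    · exact absurd (Or.inr ⟨fun e => e.elim uW uD, b, c, a.symm⟩) uS
    · obtain ⟨k, hk, rfl⟩ := onp b c
      obtain ⟨-, d, hd, ad⟩ := id c
      have a1 : G.Adj (p k) (if k = 0 then v else p (k - 1)) := by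
        split_ifs with e
        · rw [e, p0]; exact avy.symm
        · have := (hp.pth.1 (k - 1) (by omega)).symm
          rwa [show k - 1 + 1 = k by omega] at this
      have a2 : G.Adj (p k) (if k = m then w else p (k + 1)) := by
        split_ifs with e
        · rw [e, pm]; exact awy.symm
        · exact hp.pth.1 k (by omega)
      have n1 : (if k = 0 then v else p (k - 1)) ≠ (if k = m then w else p (k + 1)) := by
        split_ifs with e f f
        · exact fun q => hne q (by rw [← p0, ← pm, ← f, e])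
        · exact fun q => pW _ (by omega) (q ▸ hv)
        · exact fun q => pW _ (by omega) (q ▸ hw)
        · exact fun q => by have := hp.inj (by omega) (by omega) q; omega
      have n2 : (if k = 0 then v else p (k - 1)) ≠ d := by
        split_ifs with e
        · exact fun q => disjoint_left.1 d3 hv (q ▸ hd)
        · exact fun q => pD _ (by omega) (q ▸ hd)
      have n3 : (if k = m then w else p (k + 1)) ≠ d := by
        split_ifs with e
        · exact fun q => disjoint_left.1 d3 hw (q ▸ hd)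
        · exact fun q => pD _ (by omega) (q ▸ hd)
      rcases h.le3 _ _ _ _ _ a1 a2 ad.symm a.symm n1 n2 n3 with e | e | e
      · split_ifs at e with f
        · exact absurd (e ▸ hv) uW
        · refine ⟨k - 1, by omega, e, Or.inr ⟨by
            rw [if_neg (by omega), show k - 1 + 1 = k by omega], fun j q s t => ?_⟩⟩
          rcases (show j = k ∨ k < j by omega) with g | g
          · exact hb (g ▸ t)
          · exact jump (k - 1) k j (by omega) g s (e ▸ hu) t c
      · split_ifs at e with f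
        · exact absurd (e ▸ hw) uW
        · refine ⟨k + 1, by omega, e, Or.inl ⟨by simp, fun i q t => ?_⟩⟩
          rcases (show i = k ∨ i < k by omega) with g | g
          · exact hb (g ▸ t)
          · exact jump i k (k + 1) g (by omega) (by omega) t (e ▸ hu) c
      · exact absurd (e ▸ hd) uD
  obtain ⟨t0, h0⟩ : ∃ t0, ∀ t, p t ∈ Y → (∀ i < t, p i ∉ Y) → t = t0 := by
    by_cases c : ∃ t, p t ∈ Y ∧ ∀ i < t, p i ∉ Y
    · obtain ⟨t0, a, b⟩ := c
      refine ⟨t0, fun t e f => ?_⟩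
      rcases lt_trichotomy t t0 with g | g | g
      · exact absurd e (b t g)
      · exact g
      · exact absurd a (f _ g)
    · exact ⟨0, fun t e f => absurd ⟨t, e, f⟩ c⟩
  obtain ⟨t1, h1⟩ : ∃ t1, ∀ t ≤ m, p t ∈ Y → (∀ j, t < j → j ≤ m → p j ∉ Y) → t = t1 := by
    by_cases c : ∃ t ≤ m, p t ∈ Y ∧ ∀ j, t < j → j ≤ m → p j ∉ Y
    · obtain ⟨t1, l, a, b⟩ := c
      refine ⟨t1, fun t l' e f => ?_⟩
      rcases lt_trichotomy t t1 with g | g | g
      · exact absurd a (f _ g l)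
      · exact g
      · exact absurd e (b t g l')
    · exact ⟨0, fun t l e f => absurd ⟨t, l, e, f⟩ c⟩
  have sub := h.cut Y (p t0) (if t0 = 0 then v else p (t0 - 1)) (p t1)
    (if t1 = m then w else p (t1 + 1)) (fun u hu b hb a => by
      obtain ⟨t, l, rfl, ⟨e, f⟩ | ⟨e, f⟩⟩ := leave u hu b hb a
      · obtain rfl := h0 t hu f
        exact Or.inl ⟨rfl, e⟩
      · obtain rfl := h1 t l hu f
        exact Or.inr ⟨rfl, e⟩) v r (fun e => disjoint_left.1 hWR hv (e ▸ hr))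
    (fun e => YS v e (Or.inl (Or.inl hv))) (fun e => YS r e (Or.inl (Or.inr (d1 hr))))
  obtain ⟨b, a, -⟩ := h.ge2 x x
  by_cases c : b ∈ Y
  · exact a.ne (sub xY c)
  · obtain ⟨t, l, e, -⟩ := leave x xY b c a
    exact xp t l e.symm

end Pool.Agent.P.MP_bb4f54_co.CF
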